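import Pool.Agent.Helper36.Sq.Goals

/-!
# Project SQ, packet SEQ
-/

namespace Pool.Agent.Helper57.Sq

open Pool.Agent.Helper36.Sq

theorem gSeq : GSeq := by
  intro a l K hK ha hs
  set α : ℕ → ℝ := fun j => 8 * 4 ^ l * a (j - l) + (1 / 2) ^ j with hα
  have hpos : ∀ j, 0 < α j := by
    intro j
    have h1 : (0 : ℝ) < (1 / 2) ^ j := by positivity
    have h2 : 0 ≤ 8 * 4 ^ l * a (j - l) := by
      have := ha (j - l)
      positivity
    simp only [hα]; linarith
  have hsum1 : Summable (fun j => a (j - l) ^ 2) := by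
    rw [← summable_nat_add_iff l]
    simpa using hs
  have hsum2 : Summable (fun j : ℕ => ((1 / 4 : ℝ)) ^ j) :=
    summable_geometric_of_lt_one (by norm_num) (by norm_num)
  have hsum3 : Summable (fun j => 2 * (8 * 4 ^ l) ^ 2 * a (j - l) ^ 2 + 2 * (1 / 4 : ℝ) ^ j) :=
    (hsum1.mul_left _).add (hsum2.mul_left _)
  have hsumα : Summable (fun j => α j ^ 2) := by
    refine Summable.of_nonneg_of_le (fun j => sq_nonneg _) ?_ hsum3
    intro j
    have h4 : ((1 / 4 : ℝ)) ^ j = ((1 / 2) ^ j) ^ 2 := by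
      rw [← pow_mul, mul_comm j 2, pow_mul]; norm_num
    rw [h4]
    simp only [hα]
    nlinarith [sq_nonneg (8 * 4 ^ l * a (j - l) - (1 / 2) ^ j)]
  have hlim : Filter.Tendsto α Filter.atTop (nhds 0) := by
    have h5 := hsumα.tendsto_atTop_zero
    have h6 := h5.sqrt
    rw [Real.sqrt_zero] at h6
    refine h6.congr ?_
    intro j
    exact Real.sqrt_sq (hpos j).le
  have hev : ∀ᶠ j in Filter.atTop, α j < min 1 (K / 2) :=
    hlim.eventually_lt_const (lt_min one_pos (half_pos hK))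
  obtain ⟨b0, hb0⟩ := Filter.eventually_atTop.1 hev
  have hq : ∀ j, ∃ q : ℕ, max b0 l ≤ j → α j ≤ (1 / 2 : ℝ) ^ q ∧ (1 / 2 : ℝ) ^ q ≤ 2 * α j := by
    intro j
    by_cases hj : max b0 l ≤ j
    · have h7 := hb0 j ((le_max_left _ _).trans hj)
      have h8 : α j ≤ 1 := (h7.trans_le (min_le_left _ _)).le
      obtain ⟨q, hq1, hq2⟩ := exists_nat_pow_near_of_lt_one (hpos j) h8
        (by norm_num : (0 : ℝ) < 1 / 2) (by norm_num : (1 / 2 : ℝ) < 1)
      refine ⟨q, fun _ => ⟨hq2, ?_⟩⟩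
      have h9 : (1 / 2 : ℝ) ^ (q + 1) = (1 / 2) ^ q * (1 / 2) := pow_succ _ _
      rw [h9] at hq1
      linarith
    · exact ⟨0, fun h => absurd h hj⟩
  choose q hq using hq
  refine ⟨max b0 l, q, le_max_right _ _, ?_, ?_⟩
  · rw [← summable_nat_add_iff (max b0 l)]
    have h10 := (summable_nat_add_iff (f := fun j => α j ^ 2) (max b0 l)).2 hsumα
    refine Summable.of_nonneg_of_le (fun j => by positivity) ?_ (h10.mul_left 4)
    intro j
    have h11 := hq (j + max b0 l) (Nat.le_add_left _ _)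
    have h12 : ((1 / 4 : ℝ)) ^ q (j + max b0 l) = ((1 / 2) ^ q (j + max b0 l)) ^ 2 := by
      rw [← pow_mul, mul_comm _ 2, pow_mul]; norm_num
    rw [h12]
    have h13 : (0 : ℝ) ≤ (1 / 2) ^ q (j + max b0 l) := by positivity
    have h14 := hpos (j + max b0 l)
    nlinarith [h11.2]
  · intro j hj
    have h15 := hq j hj
    have h16 := hb0 j ((le_max_left _ _).trans hj)
    have h17 : α j ≤ K / 2 := (h16.trans_le (min_le_right _ _)).le
    have h18 : (0 : ℝ) < (1 / 2) ^ j := by positivity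
    refine ⟨?_, by linarith [h15.2]⟩
    have h19 : 8 * 4 ^ l * a (j - l) ≤ α j := by
      simp only [hα]; linarith
    exact h19.trans h15.1

end Pool.Agent.Helper57.Sq
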